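import Pool.Agent.K1H81.HV.Defs

/-!
# The Sato–Tate sequences of hypersurfaces of even dimension: definitions

`Mon n d` is the set of the monomials of degree `d` in the variables `x_0, …, x_n`, `trace c p k` the
trace of the `k`-th power of Frobenius at `p` on the primitive part of `H^{2m}(X)(m)`, for the
hypersurface `X ⊂ ℙ^{2m+1}` with the coefficients `c`, and `limitLaw r` the law of `(Z_1, …, Z_r)`, for
independent normal variables `Z_k` of variance `k` and mean value `1` (`k` even) or `0` (`k` odd)
(`Pool.Agent.K1H81.HV.Defs`).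
-/

set_option autoImplicit false

namespace Pool.Agent.K1H81.HX

open Finset MeasureTheory
open scoped NNReal
open Pool.Agent.Y722.HS (Mon)
open Pool.Agent.K1H81.HV (trace GoodReduction limitLaw)

/-- The unit mass at the point `x`. -/
noncomputable def dir {E : Type*} [MeasurableSpace E] (x : E) : FiniteMeasure E :=
  ⟨Measure.dirac x, inferInstance⟩

/-- The law of `Y ω` for a random element `ω` of the finite set `s`: the sum of the unit masses at the
points `Y ω`, `ω ∈ s`, divided by the number of the elements of `s`. -/
noncomputable def emp {Ω E : Type*} [MeasurableSpace E] (s : Finset Ω) (Y : Ω → E) :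
    FiniteMeasure E :=
  ((s.card : ℝ≥0)⁻¹) • ∑ ω ∈ s, dir (Y ω)

open Classical in
/-- The primes `p < T` in `P` at which the hypersurface has good reduction. -/
noncomputable def goodPrimes {n d : ℕ} (P : Set ℕ) (c : Mon n d → ℤ) (T : ℕ) : Finset ℕ :=
  (range T).filter fun p => p ∈ P ∧ GoodReduction c p

/-- The measure `ν_T` on `ℝ^r`: the mean of the unit masses at the vectors
`(tr x_p, tr x_p², …, tr x_p^r)`, for the primes `p < T` in `P` of good reduction. -/
noncomputable def empirical (r : ℕ) {m d : ℕ} (P : Set ℕ) (c : Mon (2 * m + 1) d → ℤ) (T : ℕ) :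
    FiniteMeasure (Fin r → ℝ) :=
  emp (goodPrimes P c T) fun p k => trace c p ((k : ℕ) + 1)

instance {r : ℕ} : IsProbabilityMeasure (limitLaw r) := by
  unfold limitLaw
  infer_instance

/-- The limit law as a point of the space of the finite measures. -/
noncomputable def limitMeasure (r : ℕ) : FiniteMeasure (Fin r → ℝ) := ⟨limitLaw r, inferInstance⟩

open Classical in
/-- The set `P` contains at least `δ T / log T` primes `p < T`, for some `δ > 0` and all large `T`. -/
def ManyPrimes (P : Set ℕ) : Prop :=
  ∃ δ : ℝ, 0 < δ ∧ ∃ T₁ : ℕ, ∀ T : ℕ, T₁ ≤ T →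
    δ * T ≤ (((range T).filter fun p => p.Prime ∧ p ∈ P).card : ℝ) * Real.log T

end Pool.Agent.K1H81.HX
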