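import Pool.Agent.K1H81.HX.Weak
import Pool.Agent.K1H81.HV.Fin

/-!
# The law of the traces of a random hypersurface over a large prime field is close to the limit law
-/

set_option autoImplicit false
set_option linter.unusedSectionVars false

namespace Pool.Agent.K1H81.HX

open Finset hiding val
open MeasureTheory ProbabilityTheory Filter Topology
open scoped NNReal ENNReal
open Pool.Agent.Y722.HS Pool.Agent.X280.HG Pool.Agent.X280.BP Pool.Agent.X280.UC Pool.Agent.K1H81.HV

section
variable {r : ℕ}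

/-- A linear form. -/
noncomputable def lin (u : Fin r → ℝ) : MvPolynomial (Fin r) ℝ :=
  ∑ k, MvPolynomial.C (u k) * MvPolynomial.X k

theorem eval_lin (u z : Fin r → ℝ) : MvPolynomial.eval z (lin u) = ∑ k, u k * z k := by
  simp [lin]

theorem integrable_exp (u : Fin r → ℝ) (s : ℝ) :
    Integrable (fun z : Fin r → ℝ => Real.exp (s * ∑ k, u k * z k)) (limitLaw r) := by
  have e : (fun z : Fin r → ℝ => Real.exp (s * ∑ k, u k * z k)) =
      fun z => ∏ k, Real.exp ((s * u k) * z k) := by
    funext z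
    rw [← Real.exp_sum, Finset.mul_sum]
    congr 1
    exact Finset.sum_congr rfl fun k _ => by ring
  rw [e]
  unfold limitLaw
  exact Integrable.fintype_prod (f := fun k (x : ℝ) => Real.exp ((s * u k) * x)) fun k =>
    integrable_exp_mul_gaussianReal _

theorem integrable_lin_pow (u : Fin r → ℝ) (j : ℕ) :
    Integrable (fun z : Fin r → ℝ => (∑ k, u k * z k) ^ j) (limitLaw r) := by
  have h1 := integrable_exp u 1
  have h2 := integrable_exp u (-1)
  have hc : Continuous fun z : Fin r → ℝ => (∑ k, u k * z k) ^ j := by fun_prop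
  refine ((h1.add h2).const_mul (j.factorial : ℝ)).mono' hc.aestronglyMeasurable
    (Eventually.of_forall fun z => ?_)
  obtain ⟨w, hw⟩ : ∃ w, ∑ k, u k * z k = w := ⟨_, rfl⟩
  simp only [Pi.add_apply]
  rw [hw, Real.norm_eq_abs, abs_pow]
  have h3 := Real.pow_div_factorial_le_exp |w| (abs_nonneg _) j
  rw [div_le_iff₀ (by positivity)] at h3
  refine h3.trans ?_
  rw [mul_comm]
  refine mul_le_mul_of_nonneg_left ?_ (by positivity)
  rcases abs_cases w with ⟨h, -⟩ | ⟨h, -⟩
  · rw [h, one_mul]
    linarith [Real.exp_pos (-1 * w)]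
  · rw [h, ← neg_one_mul]
    linarith [Real.exp_pos (1 * w)]

theorem EM_emp {ι E : Type} [Fintype ι] [DecidableEq ι] [MeasurableSpace E]
    [MeasurableSingletonClass E] (p : ℕ) [NeZero p] (Y : (ι → ZMod p) → E) (f : E → ℝ) :
    ∫ x, f x ∂(emp univ Y : Measure E) = EM p (fun c => f (Y c)) := by
  rw [integral_emp]
  unfold EM
  rw [Finset.card_univ, Fintype.card_fun, ZMod.card, smul_eq_mul, inv_mul_eq_div]
  push_cast
  rfl

/-- The vector of the traces. -/
noncomputable def tv (r m d p : ℕ) [Fact p.Prime] (c : Mon (2 * m + 1) d → ZMod p) : Fin r → ℝ :=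
  fun k => tk m d p ((k : ℕ) + 1) c

theorem univ_ne {m d p : ℕ} [Fact p.Prime] :
    (univ : Finset (Mon (2 * m + 1) d → ZMod p)).Nonempty := ⟨0, Finset.mem_univ _⟩

/-- The law of the vector of the traces. -/
noncomputable def tlaw (r m d p : ℕ) [Fact p.Prime] : ProbabilityMeasure (Fin r → ℝ) :=
  ⟨(emp univ (tv r m d p) : Measure (Fin r → ℝ)), isProb_emp univ_ne _⟩

/-- The limit law. -/
noncomputable def llaw (r : ℕ) : ProbabilityMeasure (Fin r → ℝ) := ⟨limitLaw r, inferInstance⟩

/-- **The laws of the traces converge weakly.** -/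
theorem conv (m d p : ℕ → ℕ) [hp : ∀ n, Fact (p n).Prime] (hm : ∀ n, 1 ≤ m n)
    (hd : Tendsto d atTop atTop) (hpt : Tendsto p atTop atTop) :
    Tendsto (fun n => tlaw r (m n) (d n) (p n)) atTop (𝓝 (llaw r)) := by
  refine weak_of_charfun _ _ fun u => ?_
  have hprob : ∀ n, IsProbabilityMeasure (tlaw r (m n) (d n) (p n) : Measure (Fin r → ℝ)) :=
    fun n => inferInstance
  refine charfun_conv (fun n => (tlaw r (m n) (d n) (p n) : Measure (Fin r → ℝ)))
    (llaw r : Measure (Fin r → ℝ)) (fun x => ∑ k, u k * x k) (by fun_prop)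
    (fun n j => integrable_emp _ _ _) (fun j => integrable_lin_pow u j) (integrable_exp u 2) ?_
    fun j => ?_
  · have := integrable_exp u (-2)
    refine this.congr (Eventually.of_forall fun z => ?_)
    dsimp only
    congr 1
    ring
  · have hD := (WD_total (lin u)).pow j
    obtain ⟨C, hC0, hC⟩ := EM_mv (lin u ^ j) _ hD
    have e1 : ∫ x, (∑ k, u k * x k) ^ j ∂(llaw r : Measure (Fin r → ℝ)) = mean (lin u ^ j) := by
      rw [← mean_limit]
      refine integral_congr_ae (Eventually.of_forall fun z => ?_)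
      dsimp only
      rw [map_pow, eval_lin]
    have e2 : ∀ n, ∫ x, (∑ k, u k * x k) ^ j ∂(tlaw r (m n) (d n) (p n) : Measure (Fin r → ℝ)) =
        EM (p n) (fun c : Mon (2 * m n + 1) (d n) → ZMod (p n) =>
          MvPolynomial.eval (fun i : Fin r => tk (m n) (d n) (p n) ((i : ℕ) + 1) c)
            (lin u ^ j)) := by
      intro n
      have h1 := EM_emp (p n) (tv r (m n) (d n) (p n)) (fun x => (∑ k, u k * x k) ^ j)
      refine h1.trans ?_
      congr 1
      funext c
      rw [map_pow, eval_lin]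
      rfl
    rw [e1]
    simp only [e2]
    have h3 : Tendsto (fun n => C / (p n : ℝ)) atTop (𝓝 0) :=
      tendsto_const_nhds.div_atTop (tendsto_natCast_atTop_atTop.comp hpt)
    rw [tendsto_iff_norm_sub_tendsto_zero]
    refine squeeze_zero' (Eventually.of_forall fun n => norm_nonneg _) ?_ h3
    filter_upwards [hd.eventually_ge_atTop
      (j * (lin u).weightedTotalDegree fun i : Fin r => (i : ℕ) + 1)] with n hn
    exact hC (m n) (d n) (hm n) (by omega) (p n)

/-- **The mean values of a bounded continuous function of the traces.** -/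
theorem unif (f : BoundedContinuousFunction (Fin r → ℝ) ℝ) {ε : ℝ} (hε : 0 < ε) : ∃ N : ℕ,
    ∀ (m d : ℕ), 1 ≤ m → N ≤ d → ∀ (p : ℕ) [Fact p.Prime], N ≤ p →
      |EM p (fun c => f (tv r m d p c)) - ∫ x, f x ∂(limitLaw r)| ≤ ε := by
  by_contra hcon
  push Not at hcon
  choose m d hm hd p hp hpn hlt using hcon
  have h1 := conv (r := r) m d p hm (tendsto_atTop_mono hd tendsto_id)
    (tendsto_atTop_mono hpn tendsto_id)
  rw [ProbabilityMeasure.tendsto_iff_forall_integral_tendsto] at h1
  have h2 := h1 f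
  rw [Metric.tendsto_atTop] at h2
  obtain ⟨n0, h3⟩ := h2 ε hε
  have h4 := h3 n0 le_rfl
  have h5 := EM_emp (p n0) (tv r (m n0) (d n0) (p n0)) (fun x => f x)
  have h6 := hlt n0
  rw [← h5] at h6
  rw [Real.dist_eq] at h4
  exact lt_irrefl _ (h6.trans h4)

end

end Pool.Agent.K1H81.HX
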