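import Pool.Agent.K1H81.HX.Main

/-!
# Equidistribution in the weak topology
-/

set_option autoImplicit false
set_option linter.unusedSectionVars false

namespace Pool.Agent.K1H81.HX

open Finset hiding val
open MeasureTheory ProbabilityTheory Filter Topology
open scoped NNReal ENNReal BoundedContinuousFunction
open Pool.Agent.Y722.HS Pool.Agent.X280.HG Pool.Agent.X280.BP Pool.Agent.X280.UC Pool.Agent.K1H81.HV

theorem lower {ι : Type*} (s : Finset ι) (g : ι → ℝ) (hg : ∀ i ∈ s, 0 < g i) :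
    ∃ ε : ℝ, 0 < ε ∧ ∀ i ∈ s, ε ≤ g i := by
  classical
  induction s using Finset.induction with
  | empty => exact ⟨1, one_pos, by simp⟩
  | insert a s ha ih =>
    obtain ⟨ε, hε, h⟩ := ih fun i hi => hg i (Finset.mem_insert_of_mem hi)
    refine ⟨min ε (g a), lt_min hε (hg a (Finset.mem_insert_self a s)), fun i hi => ?_⟩
    rcases Finset.mem_insert.1 hi with rfl | hi
    · exact min_le_right _ _
    · exact (min_le_left _ _).trans (h i hi)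

/-- The neighbourhoods in the weak topology. -/
theorem nbhd {X : Type*} [MeasurableSpace X] [TopologicalSpace X] [OpensMeasurableSpace X]
    (γ : FiniteMeasure X) (U : Set (FiniteMeasure X)) (hU : U ∈ 𝓝 γ) :
    ∃ (s : Finset (X →ᵇ ℝ)) (ε : ℝ), 0 < ε ∧ ∀ ν : FiniteMeasure X,
      (∀ f ∈ s, |∫ x, f x ∂(ν : Measure X) - ∫ x, f x ∂(γ : Measure X)| ≤ ε) → ν ∈ U := by
  classical
  set L : Filter (FiniteMeasure X) := ⨅ f : X →ᵇ ℝ,
    comap (fun ν : FiniteMeasure X => ∫ x, f x ∂(ν : Measure X)) (𝓝 (∫ x, f x ∂(γ : Measure X)))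
    with hL
  have h1 : Tendsto (fun ν : FiniteMeasure X => ν) L (𝓝 γ) := by
    refine FiniteMeasure.tendsto_of_forall_integral_tendsto fun f => ?_
    exact tendsto_comap.mono_left (iInf_le _ f)
  have h2 : U ∈ L := h1 hU
  rw [hL, Filter.mem_iInf] at h2
  obtain ⟨I, hI, V, hV, hUV⟩ := h2
  have h3 : ∀ i : I, ∃ ε : ℝ, 0 < ε ∧ ∀ ν : FiniteMeasure X,
      |∫ x, i.1 x ∂(ν : Measure X) - ∫ x, i.1 x ∂(γ : Measure X)| < ε → ν ∈ V i := by
    intro i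
    obtain ⟨t, ht, htV⟩ := hV i
    obtain ⟨ε, hε, hball⟩ := Metric.mem_nhds_iff.1 ht
    refine ⟨ε, hε, fun ν hν => htV (hball ?_)⟩
    rwa [Metric.mem_ball, Real.dist_eq]
  choose g hg0 hg using h3
  haveI := hI.fintype
  obtain ⟨ε, hε, hle⟩ := lower (univ : Finset I) g fun i _ => hg0 i
  refine ⟨hI.toFinset, ε / 2, by positivity, fun ν hν => ?_⟩
  rw [hUV, Set.mem_iInter]
  intro i
  refine hg i ν ?_
  have h4 := hν i.1 (hI.mem_toFinset.2 i.2)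
  have h5 := hle i (Finset.mem_univ i)
  linarith

/-- **Equidistribution in the weak topology.** -/
theorem quench {r : ℕ} (P : Set ℕ) (hP : ManyPrimes P) (U : Set (FiniteMeasure (Fin r → ℝ)))
    (hU : U ∈ 𝓝 (limitMeasure r)) {η : ℝ} (hη : 0 < η) : ∃ N : ℕ, ∀ m d : ℕ, 1 ≤ m → N ≤ d →
      ∃ T₀ : ℕ, ∀ H : ℕ,
      ({c : Mon (2 * m + 1) d → ℤ | (∀ μ, |c μ| ≤ H) ∧ ∃ T : ℕ, T₀ ≤ T ∧ 8 * T ^ 4 ≤ H ∧
        empirical r P c T ∉ U}.ncard : ℝ) ≤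
        η * (2 * H + 1 : ℝ) ^ Fintype.card (Mon (2 * m + 1) d) := by
  classical
  obtain ⟨s, ε, hε, hs⟩ := nbhd (limitMeasure r) U hU
  have hη' : 0 < η / (s.card + 1) := by positivity
  choose N hN using fun f : (Fin r → ℝ) →ᵇ ℝ => quench1 f P hP hε hη'
  refine ⟨s.sup N, fun m d hm hd => ?_⟩
  have h1 : ∀ f : s, ∃ T₀ : ℕ, ∀ H : ℕ,
      ({c : Mon (2 * m + 1) d → ℤ | (∀ μ, |c μ| ≤ H) ∧ ∃ T : ℕ, T₀ ≤ T ∧ 8 * T ^ 4 ≤ H ∧
        ε < |∫ x, f.1 x ∂(empirical r P c T : Measure (Fin r → ℝ)) -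
          ∫ x, f.1 x ∂(limitLaw r)|}.ncard : ℝ) ≤
        η / (s.card + 1) * (2 * H + 1 : ℝ) ^ Fintype.card (Mon (2 * m + 1) d) :=
    fun f => hN f.1 m d hm ((Finset.le_sup f.2).trans hd)
  choose T₀ hT₀ using h1
  refine ⟨univ.sup T₀, fun H => ?_⟩
  set B := (2 * H + 1 : ℝ) ^ Fintype.card (Mon (2 * m + 1) d) with hB
  have hB0 : 0 ≤ B := by positivity
  have h2 : {c : Mon (2 * m + 1) d → ℤ | (∀ μ, |c μ| ≤ H) ∧ ∃ T : ℕ, univ.sup T₀ ≤ T ∧
      8 * T ^ 4 ≤ H ∧ empirical r P c T ∉ U} ⊆ ⋃ f ∈ (univ : Finset s),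
      {c : Mon (2 * m + 1) d → ℤ | (∀ μ, |c μ| ≤ H) ∧ ∃ T : ℕ, T₀ f ≤ T ∧ 8 * T ^ 4 ≤ H ∧
        ε < |∫ x, f.1 x ∂(empirical r P c T : Measure (Fin r → ℝ)) -
          ∫ x, f.1 x ∂(limitLaw r)|} := by
    rintro c ⟨hc, T, hT, hTH, hU'⟩
    by_contra hcon
    apply hU'
    refine hs _ fun f hf => ?_
    by_contra hlt
    push Not at hlt
    apply hcon
    rw [Set.mem_iUnion₂]
    exact ⟨⟨f, hf⟩, Finset.mem_univ _, hc, T, (Finset.le_sup (Finset.mem_univ _)).trans hT, hTH, hlt⟩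
  have hfin : ∀ f : s, {c : Mon (2 * m + 1) d → ℤ | (∀ μ, |c μ| ≤ H) ∧ ∃ T : ℕ, T₀ f ≤ T ∧
      8 * T ^ 4 ≤ H ∧ ε < |∫ x, f.1 x ∂(empirical r P c T : Measure (Fin r → ℝ)) -
          ∫ x, f.1 x ∂(limitLaw r)|}.Finite := by
    intro f
    refine Set.Finite.subset (Set.Finite.pi' fun _ => Set.finite_Icc (-(H : ℤ)) H) ?_
    rintro c ⟨hc, -⟩ μ
    exact abs_le.1 (hc μ)
  have h3 := Set.ncard_le_ncard h2 (Set.Finite.biUnion (Finset.finite_toSet _) fun f _ => hfin f)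
  have h4 := Finset.set_ncard_biUnion_le (univ : Finset s) fun f =>
    {c : Mon (2 * m + 1) d → ℤ | (∀ μ, |c μ| ≤ H) ∧ ∃ T : ℕ, T₀ f ≤ T ∧ 8 * T ^ 4 ≤ H ∧
        ε < |∫ x, f.1 x ∂(empirical r P c T : Measure (Fin r → ℝ)) -
          ∫ x, f.1 x ∂(limitLaw r)|}
  have h5 : ((∑ f : s, {c : Mon (2 * m + 1) d → ℤ | (∀ μ, |c μ| ≤ H) ∧ ∃ T : ℕ, T₀ f ≤ T ∧
      8 * T ^ 4 ≤ H ∧ ε < |∫ x, f.1 x ∂(empirical r P c T : Measure (Fin r → ℝ)) -
          ∫ x, f.1 x ∂(limitLaw r)|}.ncard : ℕ) : ℝ) ≤ s.card * (η / (s.card + 1) * B) := by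
    push_cast
    refine (Finset.sum_le_sum fun f _ => hT₀ f H).trans (le_of_eq ?_)
    rw [Finset.sum_const, nsmul_eq_mul, Finset.card_univ, Fintype.card_coe]
  have h6 : ({c : Mon (2 * m + 1) d → ℤ | (∀ μ, |c μ| ≤ H) ∧ ∃ T : ℕ, univ.sup T₀ ≤ T ∧
      8 * T ^ 4 ≤ H ∧ empirical r P c T ∉ U}.ncard : ℝ) ≤ s.card * (η / (s.card + 1) * B) :=
    le_trans (by exact_mod_cast h3.trans h4) h5
  refine h6.trans ?_
  have h7 : (s.card : ℝ) * (η / (s.card + 1)) ≤ η := by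
    rw [← mul_div_assoc, div_le_iff₀ (by positivity)]
    nlinarith
  calc (s.card : ℝ) * (η / (s.card + 1) * B) = (s.card * (η / (s.card + 1))) * B := by ring
    _ ≤ η * B := mul_le_mul_of_nonneg_right h7 hB0

/-- The set of all primes has the property `ManyPrimes`. -/
theorem dense_univ : ManyPrimes Set.univ := by
  classical
  have h1 := Pool.Agent.K1H81.HW.lim_theta
  have h2 := h1.eventually (lt_mem_nhds (show (1 / 2 : ℝ) < 1 by norm_num))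
  obtain ⟨T₁, hT₁⟩ := Filter.eventually_atTop.1 h2
  refine ⟨1 / 2, by norm_num, max T₁ 1, fun T hT => ?_⟩
  have hT1 : T₁ ≤ T := (le_max_left _ _).trans hT
  have hT0 : (0 : ℝ) < T := by
    have : 1 ≤ T := (le_max_right _ _).trans hT
    exact_mod_cast (by omega : 0 < T)
  have h3 := hT₁ T hT1
  rw [lt_div_iff₀ hT0] at h3
  refine h3.le.trans ?_
  unfold Pool.Agent.K1H81.HW.thetaSum
  simp only [one_mul, Set.mem_univ, and_true]
  rw [← nsmul_eq_mul]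
  refine Finset.sum_le_card_nsmul _ _ _ fun p hp => ?_
  rw [Finset.mem_filter, Finset.mem_range] at hp
  exact Real.log_le_log (by exact_mod_cast hp.2.pos) (by exact_mod_cast hp.1.le)

end Pool.Agent.K1H81.HX
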