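import Pool.Agent.K1H81.HX.Law
import Pool.Agent.K1H81.HW.Fin2

/-!
# Equidistribution for almost all hypersurfaces
-/

set_option autoImplicit false
set_option linter.unusedSectionVars false

namespace Pool.Agent.K1H81.HX

open Finset hiding val
open MeasureTheory ProbabilityTheory Filter Topology
open scoped NNReal ENNReal
open Pool.Agent.Y722.HS Pool.Agent.X280.HG Pool.Agent.X280.BP Pool.Agent.X280.UC Pool.Agent.K1H81.HV
open Pool.Agent.Y722.ST (Dat avg avg_eq)
open Pool.Agent.K1H81.HW (Good1 good_iff bad1 markov)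

section
variable {ι : Type} [Fintype ι] [DecidableEq ι]

theorem avg_abs {X : ∀ p : ℕ, (ι → ZMod p) → ℝ} {B : ℝ} (hB : ∀ p c, |X p c| ≤ B) (hB0 : 0 ≤ B)
    (p : ℕ) : |avg X p| ≤ B := by
  by_cases hp : p.Prime
  · haveI := Fact.mk hp
    rw [avg_eq]
    have h1 := abs_EM_le_EM p (fun c => X p c) (fun _ => B) (fun c => hB p c)
    rwa [EM_const'] at h1
  · unfold avg
    rw [dif_neg hp, abs_zero]
    exact hB0

/-- The law of large numbers for bounded functions. -/
theorem bdd {κ : Type} [Fintype κ] (X : κ → ∀ p : ℕ, (ι → ZMod p) → ℝ) (B : ℝ)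
    (hB : ∀ k p c, |X k p c| ≤ B) (hB0 : 0 ≤ B) : ∃ C : ℝ, 0 ≤ C ∧ ∀ H : ℕ, ∃ Φ : (ι → ℤ) → ℝ,
    (∀ c, 0 ≤ Φ c) ∧ EB H Φ ≤ C ∧ ∀ (c : ι → ℤ) (k : κ) (T : ℕ), 2 ≤ T → 8 * T ^ 4 ≤ H →
      (∑ p ∈ (range T).filter Nat.Prime, (X k p (red p c) - avg (X k) p)) ^ 2 ≤
        T * Real.log T ^ 4 * Φ c := by
  have hD : ∀ k, Dat (4 * B ^ 2 + 1) 0 (fun p (c : ι → ZMod p) => X k p c - avg (X k) p) 0 := by
    intro k
    refine ⟨by nlinarith [sq_nonneg B], fun p hp _ => ?_, fun p hp _ => ?_⟩
    · have h1 := EM_monoV p (fun c : ι → ZMod p => (X k p c - avg (X k) p) ^ 2)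
        (fun _ => 4 * B ^ 2 + 1) (fun c => by
          have h2 := abs_le.1 (hB k p c)
          have h3 := abs_le.1 (avg_abs (hB k) hB0 p)
          have h4 : |X k p c - avg (X k) p| ≤ 2 * B := by
            rw [abs_le]
            constructor <;> linarith [h2.1, h2.2, h3.1, h3.2]
          have h5 : (X k p c - avg (X k) p) ^ 2 ≤ (2 * B) ^ 2 := by
            rw [← sq_abs]
            exact pow_le_pow_left₀ (abs_nonneg _) h4 2
          linarith)
      rwa [EM_const'] at h1
    · rw [sub_zero]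
      have e : EM p (fun c : ι → ZMod p => X k p c - avg (X k) p) = 0 := by
        rw [EM_sub' p (fun c => X k p c) (fun _ => avg (X k) p), EM_const', avg_eq, sub_self]
      rw [e, abs_zero]
      positivity
  obtain ⟨C, hC0, hC⟩ := Pool.Agent.Y722.ST.effective_weights (κ := κ) hD 1 0 (by simp)
  refine ⟨C, hC0, fun H => ?_⟩
  obtain ⟨Φ, hΦ0, hΦ1, hΦ2⟩ := hC (fun _ _ => 1) (fun _ _ => by simp) H
  refine ⟨Φ, hΦ0, hΦ1, fun c k T hT hTH => ?_⟩
  have h1 := hΦ2 c (fun _ => True) (fun _ _ _ _ => trivial) k T hT hTH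
  refine le_trans (le_of_eq ?_) h1
  congr 1
  unfold Pool.Agent.Y722.ST.DD
  rw [Finset.sum_filter]
  exact Finset.sum_congr rfl fun p _ => by by_cases hp : p.Prime <;> simp [hp]

end

section
variable {r m d : ℕ}

open Classical in
/-- The centred function at the primes of good reduction in `P`. -/
noncomputable def AA (f : (Fin r → ℝ) → ℝ) (I : ℝ) (P : Set ℕ) (p : ℕ)
    (c : Mon (2 * m + 1) d → ZMod p) : ℝ :=
  if h : p.Prime then
    haveI : Fact p.Prime := ⟨h⟩
    if p ∈ P ∧ Good1 p c then f (tv r m d p c) - I else 0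
  else 0

open Classical in
/-- The indicator of the primes of bad reduction in `P`. -/
noncomputable def BI (P : Set ℕ) (p : ℕ) (c : Mon (2 * m + 1) d → ZMod p) : ℝ :=
  if p ∈ P ∧ ¬ Good1 p c then 1 else 0

open Classical in
/-- The number of the primes below `T` in `P`. -/
noncomputable def NP (P : Set ℕ) (T : ℕ) : ℝ :=
  (((range T).filter fun p => p.Prime ∧ p ∈ P).card : ℝ)

theorem avg_BI (hd : 1 ≤ d) (P : Set ℕ) (p : ℕ) [hp : Fact p.Prime] :
    |avg (BI (m := m) (d := d) P) p| ≤ ((Delta (2 * m + 1) d).totalDegree + d : ℝ) / p := by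
  classical
  rw [avg_eq]
  refine (abs_EM_le_EM p _ (fun c => if IsBad p c then (1 : ℝ) else 0) fun c => ?_).trans
    (EM_bad (2 * m + 1) d hd p)
  unfold BI
  split_ifs with h1 h2 h2
  · rw [abs_one]
  · exact absurd (bad1 hd p c h1.2) h2
  · rw [abs_zero]
    norm_num
  · rw [abs_zero]

theorem avg_AA (hd : 1 ≤ d) (f : (Fin r → ℝ) → ℝ) (I F ε : ℝ) (hF : ∀ x, |f x - I| ≤ F)
    (P : Set ℕ) (p : ℕ) [hp : Fact p.Prime]
    (h : |EM p (fun c => f (tv r m d p c)) - I| ≤ ε) :
    |avg (AA (m := m) (d := d) f I P) p| ≤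
      ε + F * (((Delta (2 * m + 1) d).totalDegree + d : ℝ) / p) := by
  classical
  have hF0 : 0 ≤ F := (abs_nonneg _).trans (hF 0)
  have hε0 : 0 ≤ ε := (abs_nonneg _).trans h
  rw [avg_eq]
  have hbad := EM_bad (2 * m + 1) d hd p
  by_cases hP : p ∈ P
  · have e : (fun c : Mon (2 * m + 1) d → ZMod p => AA (m := m) (d := d) f I P p c) =
        fun c => (f (tv r m d p c) + (-I)) + (-1) * (BI P p c * (f (tv r m d p c) - I)) := by
      funext c
      unfold AA BI
      rw [dif_pos hp.out]
      by_cases hg : Good1 p c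
      · simp only [hP, hg, and_self, if_true, not_true, and_false, if_false]
        ring
      · simp only [hP, hg, and_false, if_false, not_false_iff, and_self, if_true]
        ring
    rw [e, EM_add', EM_add', EM_const', EM_mul']
    have h1 : |EM p (fun c => BI P p c * (f (tv r m d p c) - I))| ≤
        F * (((Delta (2 * m + 1) d).totalDegree + d : ℝ) / p) := by
      refine (abs_EM_le_EM p _ (fun c => F * (if IsBad p c then (1 : ℝ) else 0)) fun c => ?_).trans ?_
      · rw [abs_mul]
        unfold BI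
        split_ifs with h1 h2 h2
        · rw [abs_one, one_mul, mul_one]
          exact hF _
        · exact absurd (bad1 hd p c h1.2) h2
        · rw [abs_zero, zero_mul, mul_one]
          exact hF0
        · rw [abs_zero, zero_mul, mul_zero]
      · rw [EM_mul']
        exact mul_le_mul_of_nonneg_left hbad hF0
    have h2 : |EM p (fun c => f (tv r m d p c)) + -I| ≤ ε := h
    have h3 := abs_add_le (EM p (fun c => f (tv r m d p c)) + -I)
      (-1 * EM p (fun c => BI P p c * (f (tv r m d p c) - I)))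
    rw [abs_mul, abs_neg, abs_one, one_mul] at h3
    linarith
  · have e : (fun c : Mon (2 * m + 1) d → ZMod p => AA (m := m) (d := d) f I P p c) =
        fun _ => 0 := by
      funext c
      unfold AA
      rw [dif_pos hp.out, if_neg (fun h => hP h.1)]
    rw [e, EM_const', abs_zero]
    positivity

/-- The sum of bounded numbers, small outside of an initial interval. -/
theorem sum_small (g : ℕ → ℝ) (P : Set ℕ) (a F : ℝ) (ha : 0 ≤ a) (hF : 0 ≤ F) (p1 T : ℕ)
    (h0 : ∀ p, p.Prime → p ∉ P → g p = 0) (h1 : ∀ p, p.Prime → |g p| ≤ F)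
    (h2 : ∀ p, p.Prime → p1 ≤ p → |g p| ≤ a) :
    |∑ p ∈ (range T).filter Nat.Prime, g p| ≤ a * NP P T + F * p1 := by
  classical
  refine (Finset.abs_sum_le_sum_abs _ _).trans ?_
  have h3 : ∀ p ∈ (range T).filter Nat.Prime, |g p| ≤
      (if p ∈ P then a else 0) + (if p < p1 then F else 0) := by
    intro p hp
    rw [Finset.mem_filter] at hp
    by_cases hpP : p ∈ P
    · rw [if_pos hpP]
      by_cases hlt : p < p1
      · rw [if_pos hlt]
        linarith [h1 p hp.2]
      · rw [if_neg hlt, add_zero]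
        exact h2 p hp.2 (by omega)
    · rw [h0 p hp.2 hpP, abs_zero, if_neg hpP, zero_add]
      split_ifs
      · exact hF
      · exact le_rfl
  refine (Finset.sum_le_sum h3).trans ?_
  rw [Finset.sum_add_distrib]
  have h4 : ∑ p ∈ (range T).filter Nat.Prime, (if p ∈ P then a else 0) = a * NP P T := by
    rw [← Finset.sum_filter, Finset.filter_filter, Finset.sum_const, nsmul_eq_mul, mul_comm]
    rfl
  have h5 : ∑ p ∈ (range T).filter Nat.Prime, (if p < p1 then F else 0) ≤ F * p1 := by
    rw [← Finset.sum_filter, Finset.sum_const, nsmul_eq_mul, mul_comm]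
    refine mul_le_mul_of_nonneg_left ?_ hF
    have : (((range T).filter Nat.Prime).filter fun p => p < p1).card ≤ (range p1).card := by
      refine Finset.card_le_card fun p hp => ?_
      rw [Finset.mem_filter] at hp
      exact Finset.mem_range.2 hp.2
    rw [Finset.card_range] at this
    exact_mod_cast this
  rw [h4]
  linarith

end

end Pool.Agent.K1H81.HX
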