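import Pool.Agent.K1H81.HX.Defs
import Pool.Agent.Y933.KD.Tay

/-!
# Empirical laws, and weak convergence from the moments
-/

set_option autoImplicit false
set_option linter.unusedSectionVars false

namespace Pool.Agent.K1H81.HX

open Finset MeasureTheory ProbabilityTheory Filter Topology
open scoped NNReal ENNReal RealInnerProductSpace
open Pool.Agent.Y933.KD (RT RT_le)

section emp
variable {Ω E : Type*} [MeasurableSpace E]

theorem emp_measure (s : Finset Ω) (Y : Ω → E) :
    (emp s Y : Measure E) = ((s.card : ℝ≥0)⁻¹) • ∑ ω ∈ s, Measure.dirac (Y ω) := by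
  unfold emp
  rw [FiniteMeasure.toMeasure_smul, FiniteMeasure.toMeasure_sum]
  rfl

theorem integrable_sum_dirac [MeasurableSingletonClass E] {F : Type*} [NormedAddCommGroup F]
    (s : Finset Ω) (Y : Ω → E) (f : E → F) :
    Integrable f (∑ ω ∈ s, Measure.dirac (Y ω)) := by
  rw [integrable_finsetSum_measure]
  intro ω _
  exact integrable_dirac (by simp)

theorem integrable_emp [MeasurableSingletonClass E] {F : Type*} [NormedAddCommGroup F]
    (s : Finset Ω) (Y : Ω → E) (f : E → F) : Integrable f (emp s Y : Measure E) := by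
  rw [emp_measure]
  exact (integrable_sum_dirac s Y f).smul_measure_nnreal

theorem integral_emp [MeasurableSingletonClass E] {F : Type*} [NormedAddCommGroup F]
    [NormedSpace ℝ F] [CompleteSpace F] (s : Finset Ω) (Y : Ω → E) (f : E → F) :
    ∫ x, f x ∂(emp s Y : Measure E) = (s.card : ℝ)⁻¹ • ∑ ω ∈ s, f (Y ω) := by
  rw [emp_measure, integral_smul_nnreal_measure, integral_finsetSum_measure
    (fun ω _ => integrable_dirac (by simp))]
  simp only [integral_dirac]
  rfl

theorem isProb_emp {s : Finset Ω} (hs : s.Nonempty) (Y : Ω → E) :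
    IsProbabilityMeasure (emp s Y : Measure E) := by
  constructor
  rw [emp_measure]
  simp only [Measure.smul_apply, Measure.finsetSum_apply, measure_univ, Finset.sum_const,
    nsmul_eq_mul, mul_one]
  have h0 : (s.card : ℝ≥0) ≠ 0 := by
    exact_mod_cast hs.card_pos.ne'
  rw [ENNReal.smul_def, smul_eq_mul, ENNReal.coe_inv h0]
  exact ENNReal.inv_mul_cancel (by simpa using hs.ne_empty) (by simp)

end emp

/-- The expansion of Taylor of the characteristic function. -/
theorem taylor_int {X : Type*} [MeasurableSpace X] (μ : Measure X) [IsProbabilityMeasure μ]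
    (W : X → ℝ) (hW : Measurable W) (hI : ∀ j, Integrable (fun x => W x ^ j) μ) (J : ℕ)
    (hJ : Even J) :
    ‖∫ x, Complex.exp (W x * Complex.I) ∂μ -
      ∑ j ∈ range J, Complex.I ^ j / (j.factorial : ℂ) * ((∫ x, W x ^ j ∂μ : ℝ) : ℂ)‖ ≤
      (∫ x, W x ^ J ∂μ) / J.factorial := by
  have h1 : ∀ j, Integrable (fun x => Complex.I ^ j / (j.factorial : ℂ) * ((W x ^ j : ℝ) : ℂ)) μ :=
    fun j => ((hI j).ofReal).const_mul _
  have hexp : Integrable (fun x => Complex.exp (W x * Complex.I)) μ := by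
    refine Integrable.of_bound (by fun_prop) 1 (Eventually.of_forall fun x => ?_)
    rw [Complex.norm_exp_ofReal_mul_I]
  have h2 : ∫ x, Complex.exp (W x * Complex.I) ∂μ -
      ∑ j ∈ range J, Complex.I ^ j / (j.factorial : ℂ) * ((∫ x, W x ^ j ∂μ : ℝ) : ℂ) =
      ∫ x, RT J (W x) ∂μ := by
    unfold RT
    have h3 : ∀ j, Complex.I ^ j / (j.factorial : ℂ) * ((∫ x, W x ^ j ∂μ : ℝ) : ℂ) =
        ∫ x, Complex.I ^ j / (j.factorial : ℂ) * ((W x ^ j : ℝ) : ℂ) ∂μ := by
      intro j
      rw [integral_const_mul, integral_complex_ofReal]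
    rw [Finset.sum_congr rfl fun j _ => h3 j, ← integral_finsetSum _ fun j _ => h1 j,
      ← integral_sub hexp (integrable_finsetSum _ fun j _ => h1 j)]
    refine integral_congr_ae (Eventually.of_forall fun x => ?_)
    dsimp only
    congr 1
    refine Finset.sum_congr rfl fun j _ => ?_
    push_cast
    ring
  rw [h2]
  refine (norm_integral_le_integral_norm _).trans ?_
  rw [← integral_div]
  refine integral_mono_of_nonneg (Eventually.of_forall fun x => norm_nonneg _)
    ((hI J).div_const _) (Eventually.of_forall fun x => ?_)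
  have h3 := RT_le J (W x)
  rwa [hJ.pow_abs] at h3

/-- The remainder for the limit law tends to zero. -/
theorem remainder {X : Type*} [MeasurableSpace X] (γ : Measure X) [IsProbabilityMeasure γ]
    (W : X → ℝ) (he1 : Integrable (fun x => Real.exp (2 * W x)) γ)
    (he2 : Integrable (fun x => Real.exp (-(2 * W x))) γ) :
    ∃ C : ℝ, ∀ J : ℕ, Even J → (∫ x, W x ^ J ∂γ) / J.factorial ≤ C / 2 ^ J := by
  refine ⟨∫ x, (Real.exp (2 * W x) + Real.exp (-(2 * W x))) ∂γ, fun J hJ => ?_⟩
  rw [le_div_iff₀ (by positivity), ← integral_div, ← integral_mul_const]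
  refine integral_mono_of_nonneg (Eventually.of_forall fun x => ?_) (he1.add he2)
    (Eventually.of_forall fun x => ?_)
  · have : 0 ≤ W x ^ J := hJ.pow_nonneg _
    dsimp only
    positivity
  · dsimp only
    have h1 : W x ^ J / J.factorial * 2 ^ J = |2 * W x| ^ J / J.factorial := by
      rw [hJ.pow_abs, mul_pow]
      ring
    rw [h1]
    refine (Real.pow_div_factorial_le_exp _ (abs_nonneg _) _).trans ?_
    rcases abs_cases (2 * W x) with ⟨h, -⟩ | ⟨h, -⟩
    · rw [h]
      linarith [Real.exp_pos (-(2 * W x))]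
    · rw [h]
      linarith [Real.exp_pos (2 * W x)]

/-- **Convergence of the characteristic functions from the moments.** -/
theorem charfun_conv {X : Type*} [MeasurableSpace X] (μ : ℕ → Measure X) (γ : Measure X)
    [∀ j, IsProbabilityMeasure (μ j)] [IsProbabilityMeasure γ] (W : X → ℝ) (hW : Measurable W)
    (hI : ∀ n j, Integrable (fun x => W x ^ j) (μ n)) (hIγ : ∀ j, Integrable (fun x => W x ^ j) γ)
    (he1 : Integrable (fun x => Real.exp (2 * W x)) γ)
    (he2 : Integrable (fun x => Real.exp (-(2 * W x))) γ)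
    (hmom : ∀ j : ℕ, Tendsto (fun n => ∫ x, W x ^ j ∂(μ n)) atTop (𝓝 (∫ x, W x ^ j ∂γ))) :
    Tendsto (fun n => ∫ x, Complex.exp (W x * Complex.I) ∂(μ n)) atTop
      (𝓝 (∫ x, Complex.exp (W x * Complex.I) ∂γ)) := by
  obtain ⟨C, hC⟩ := remainder γ W he1 he2
  rw [Metric.tendsto_atTop]
  intro ε hε
  obtain ⟨L, hL⟩ : ∃ L : ℕ, C / 2 ^ (2 * L) < ε / 4 := by
    have h1 : Tendsto (fun L : ℕ => C / (2 : ℝ) ^ (2 * L)) atTop (𝓝 0) := by
      have h2 : Tendsto (fun L : ℕ => C * ((1 / 4 : ℝ) ^ L)) atTop (𝓝 (C * 0)) :=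
        (tendsto_pow_atTop_nhds_zero_of_lt_one (by norm_num) (by norm_num)).const_mul C
      rw [mul_zero] at h2
      refine h2.congr fun L => ?_
      rw [pow_mul, div_pow, one_pow, mul_one_div]
      norm_num
    exact (h1.eventually (gt_mem_nhds (by positivity : 0 < ε / 4))).exists
  set J := 2 * L with hJdef
  have hJ : Even J := ⟨L, by omega⟩
  have hγ := taylor_int γ W hW hIγ J hJ
  have hCJ := hC J hJ
  -- the Taylor polynomials converge
  have h1 : Tendsto (fun n => ∑ j ∈ range J, Complex.I ^ j / (j.factorial : ℂ) *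
      ((∫ x, W x ^ j ∂(μ n) : ℝ) : ℂ)) atTop (𝓝 (∑ j ∈ range J,
        Complex.I ^ j / (j.factorial : ℂ) * ((∫ x, W x ^ j ∂γ : ℝ) : ℂ))) :=
    tendsto_finsetSum _ fun j _ =>
      ((Complex.continuous_ofReal.tendsto _).comp (hmom j)).const_mul _
  have h2 : Tendsto (fun n => (∫ x, W x ^ J ∂(μ n)) / J.factorial) atTop
      (𝓝 ((∫ x, W x ^ J ∂γ) / J.factorial)) := (hmom J).div_const _
  have h3 := (Metric.tendsto_nhds.1 h1 (ε / 4) (by positivity)).and
    (h2.eventually (gt_mem_nhds (show (∫ x, W x ^ J ∂γ) / J.factorial < ε / 4 by linarith)))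
  obtain ⟨n0, hn0⟩ := eventually_atTop.1 h3
  refine ⟨n0, fun n hn => ?_⟩
  obtain ⟨h4, h5⟩ := hn0 n hn
  have h6 := taylor_int (μ n) W hW (hI n) J hJ
  rw [dist_eq_norm] at h4 ⊢
  set P := ∑ j ∈ range J, Complex.I ^ j / (j.factorial : ℂ) * ((∫ x, W x ^ j ∂(μ n) : ℝ) : ℂ)
  set Q := ∑ j ∈ range J, Complex.I ^ j / (j.factorial : ℂ) * ((∫ x, W x ^ j ∂γ : ℝ) : ℂ)
  have e : ∫ x, Complex.exp (W x * Complex.I) ∂(μ n) - ∫ x, Complex.exp (W x * Complex.I) ∂γ =
      (∫ x, Complex.exp (W x * Complex.I) ∂(μ n) - P) + (P - Q) -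
        (∫ x, Complex.exp (W x * Complex.I) ∂γ - Q) := by ring
  rw [e]
  have h7 := norm_sub_le ((∫ x, Complex.exp (W x * Complex.I) ∂(μ n) - P) + (P - Q))
    (∫ x, Complex.exp (W x * Complex.I) ∂γ - Q)
  have h8 := norm_add_le (∫ x, Complex.exp (W x * Complex.I) ∂(μ n) - P) (P - Q)
  linarith

/-- Weak convergence from the characteristic functions, in coordinates. -/
theorem weak_of_charfun {r : ℕ} (μ : ℕ → ProbabilityMeasure (Fin r → ℝ))
    (γ : ProbabilityMeasure (Fin r → ℝ))
    (h : ∀ u : Fin r → ℝ, Tendsto (fun n => ∫ x, Complex.exp ((∑ k, u k * x k : ℝ) * Complex.I)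
      ∂(μ n : Measure (Fin r → ℝ))) atTop (𝓝 (∫ x, Complex.exp ((∑ k, u k * x k : ℝ) * Complex.I)
        ∂(γ : Measure (Fin r → ℝ))))) : Tendsto μ atTop (𝓝 γ) := by
  have hc : Continuous (fun x : Fin r → ℝ => (WithLp.toLp 2 x : EuclideanSpace ℝ (Fin r))) :=
    PiLp.continuous_toLp 2 _
  have hc' : Continuous (fun x : EuclideanSpace ℝ (Fin r) => (WithLp.ofLp x : Fin r → ℝ)) :=
    PiLp.continuous_ofLp 2 _
  have h1 : Tendsto (fun n => (μ n).map hc.measurable.aemeasurable) atTop
      (𝓝 (γ.map hc.measurable.aemeasurable)) := by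
    rw [ProbabilityMeasure.tendsto_iff_tendsto_charFun]
    intro u
    have h2 : ∀ ν : ProbabilityMeasure (Fin r → ℝ),
        charFun ((ν.map hc.measurable.aemeasurable : ProbabilityMeasure (EuclideanSpace ℝ (Fin r))) :
          Measure (EuclideanSpace ℝ (Fin r))) u =
        ∫ x, Complex.exp ((∑ k, u k * x k : ℝ) * Complex.I) ∂(ν : Measure (Fin r → ℝ)) := by
      intro ν
      rw [charFun_apply, ProbabilityMeasure.toMeasure_map,
        integral_map hc.measurable.aemeasurable (by fun_prop)]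
      refine integral_congr_ae (Eventually.of_forall fun x => ?_)
      dsimp only
      congr 3
    simp only [h2]
    exact h fun k => u k
  have h3 := ProbabilityMeasure.tendsto_map_of_tendsto_of_continuous _ _ h1 hc'
  have h4 : ∀ ν : ProbabilityMeasure (Fin r → ℝ),
      (ν.map hc.measurable.aemeasurable).map hc'.measurable.aemeasurable = ν := by
    intro ν
    apply Subtype.ext
    change Measure.map _ (Measure.map _ (ν : Measure (Fin r → ℝ))) = _
    rw [Measure.map_map hc'.measurable hc.measurable]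
    have : ((fun x : EuclideanSpace ℝ (Fin r) => (WithLp.ofLp x : Fin r → ℝ)) ∘
        fun x : Fin r → ℝ => (WithLp.toLp 2 x : EuclideanSpace ℝ (Fin r))) = id := by
      funext x
      rfl
    rw [this, Measure.map_id]
    rfl
  simp only [h4] at h3
  exact h3

end Pool.Agent.K1H81.HX
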